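import Pool.Agent.R749.SCT.Defs

/-!
# Covering an arc by small open arcs (helper139)
-/

set_option autoImplicit false

open Set Topology

namespace R749SCT

namespace ArcAux

/-- the centres -/
def tau (a h : ℝ) (i : ℕ) : ℝ := a + i * h

theorem close {a h t : ℝ} (hh : 0 < h) {i j : ℕ} (hi : |t - tau a h i| < 3 * h / 4)
    (hj : |t - tau a h j| < 3 * h / 4) : i ≤ j + 1 ∧ j ≤ i + 1 := by
  rw [abs_lt] at hi hj
  unfold tau at hi hj
  have h1 : ((i : ℝ) - j) * h < 2 * h := by nlinarith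
  have h2 : ((j : ℝ) - i) * h < 2 * h := by nlinarith
  have h3 := lt_of_mul_lt_mul_right h1 hh.le
  have h4 := lt_of_mul_lt_mul_right h2 hh.le
  have h5 : (i : ℝ) < ((j + 2 : ℕ) : ℝ) := by push_cast; linarith
  have h6 : (j : ℝ) < ((i + 2 : ℕ) : ℝ) := by push_cast; linarith
  have h7 : i < j + 2 := by exact_mod_cast h5
  have h8 : j < i + 2 := by exact_mod_cast h6
  omega

theorem left_end {a h t : ℝ} (hh : 0 < h) {i : ℕ} (hi : |t - tau a h i| < 3 * h / 4)
    (ht : t < a) : i = 0 := by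
  rw [abs_lt] at hi
  unfold tau at hi
  by_contra hne
  have h1 : (1 : ℝ) ≤ i := by exact_mod_cast Nat.one_le_iff_ne_zero.2 hne
  nlinarith

theorem right_end {a b h t : ℝ} {n : ℕ} (hh : 0 < h) (hn : b = a + n * h) {i : ℕ} (hin : i ≤ n)
    (hi : |t - tau a h i| < 3 * h / 4) (ht : b < t) : i = n := by
  rw [abs_lt] at hi
  unfold tau at hi
  by_contra hne
  have h1 : i + 1 ≤ n := by omega
  have h2 : (i : ℝ) + 1 ≤ n := by exact_mod_cast h1
  nlinarith

end ArcAux

open ArcAux

theorem arcs {X : Type} [TopologicalSpace X] [T2Space X] (Φ : ℝ → X) (hc : Continuous Φ)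
    (hi : Function.Injective Φ) (ho : ∀ a b, IsOpen (Φ '' Ioo a b))
    {m : ℕ} (U : Fin m → Set X) (hU : ∀ i, IsOpen (U i)) (hcov : (⋃ i, U i) = univ)
    {a b δ : ℝ} (hab : a < b) (hδ : 0 < δ) :
    ∃ (n : ℕ) (B : Fin (n + 1) → Set X) (s : ℝ) (i₀ : Fin (n + 1)),
      (∀ i, IsOpen (B i)) ∧ (∀ i, ∃ c, B i ⊆ U c) ∧ (∀ i, B i ⊆ range Φ) ∧
      Φ '' Icc a b ⊆ (⋃ i, B i) ∧
      (∀ x i j k, x ∈ B i → x ∈ B j → x ∈ B k → i = j ∨ i = k ∨ j = k) ∧
      (∀ t i j, t ∉ Icc a b → Φ t ∈ B i → Φ t ∈ B j → i = j) ∧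
      (∀ t i, t ∉ Icc a b → Φ t ∈ B i → |t - a| < δ ∨ |t - b| < δ) ∧
      s ∈ Ioo a b ∧ Φ s ∈ B i₀ ∧ ∀ i, i ≠ i₀ → Φ s ∉ closure (B i) := by
  obtain ⟨e, he, hleb⟩ := lebesgue_number_lemma_of_metric (s := Icc a b)
    (c := fun i => Φ ⁻¹' U i) isCompact_Icc (fun i => (hU i).preimage hc)
    (by
      intro t _
      have : Φ t ∈ ⋃ i, U i := by rw [hcov]; trivial
      obtain ⟨i, hi⟩ := mem_iUnion.1 this
      exact mem_iUnion.2 ⟨i, hi⟩)
  obtain ⟨N, hN⟩ := exists_nat_gt ((b - a) / min e δ)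
  have hmin : 0 < min e δ := lt_min he hδ
  set n : ℕ := N + 3 with hn
  set h : ℝ := (b - a) / n with hh
  have hn0 : (0 : ℝ) < n := by
    rw [hn]
    positivity
  have hh0 : 0 < h := div_pos (by linarith) hn0
  have hbn : b = a + n * h := by
    rw [hh]
    field_simp
    ring
  have hhm : h < min e δ := by
    rw [hh, div_lt_iff₀ hn0]
    rw [div_lt_iff₀ hmin] at hN
    have : (N : ℝ) * min e δ ≤ n * min e δ := by
      refine mul_le_mul_of_nonneg_right ?_ hmin.le
      rw [hn]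
      push_cast
      linarith
    linarith
  have hhe : h < e := lt_of_lt_of_le hhm (min_le_left _ _)
  have hhδ : h < δ := lt_of_lt_of_le hhm (min_le_right _ _)
  set B : Fin (n + 1) → Set X := fun i =>
    Φ '' Ioo (tau a h i - 3 * h / 4) (tau a h i + 3 * h / 4) with hB
  have hmem : ∀ t (i : Fin (n + 1)), Φ t ∈ B i ↔ |t - tau a h i| < 3 * h / 4 := by
    intro t i
    rw [hB]
    simp only [hi.mem_set_image, mem_Ioo, abs_lt]
    constructor
    · rintro ⟨h1, h2⟩
      constructor <;> linarith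
    · rintro ⟨h1, h2⟩
      constructor <;> linarith
  have hin : ∀ i : Fin (n + 1), (i : ℕ) ≤ n := fun i => Nat.lt_succ_iff.1 i.2
  refine ⟨n, B, a + h, ⟨1, by omega⟩, ?_, ?_, ?_, ?_, ?_, ?_, ?_, ?_, ?_, ?_⟩
  · intro i
    exact ho _ _
  · intro i
    have h1 : tau a h i ∈ Icc a b := by
      unfold tau
      have h2 : (0 : ℝ) ≤ (i : ℕ) := Nat.cast_nonneg _
      have h3 : (((i : ℕ)) : ℝ) ≤ n := by exact_mod_cast hin i
      constructor
      · nlinarith
      · rw [hbn]
        nlinarith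
    obtain ⟨c, hc'⟩ := hleb _ h1
    refine ⟨c, ?_⟩
    rintro _ ⟨t, ht, rfl⟩
    apply hc'
    rw [Metric.mem_ball, Real.dist_eq, abs_lt]
    constructor <;> linarith [ht.1, ht.2]
  · intro i
    exact image_subset_range _ _
  · rintro _ ⟨t, ht, rfl⟩
    set u : ℝ := (t - a) / h with hu
    have hu0 : 0 ≤ u := div_nonneg (by linarith [ht.1]) hh0.le
    have hun : u ≤ n := by
      rw [hu, div_le_iff₀ hh0]
      linarith [ht.2]
    have htu : t = a + u * h := by
      rw [hu]
      field_simp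
      ring
    set i : ℕ := ⌊u + 1 / 2⌋₊ with hidef
    have h1 : (i : ℝ) ≤ u + 1 / 2 := Nat.floor_le (by linarith)
    have h2 : u + 1 / 2 < i + 1 := Nat.lt_floor_add_one _
    have h3 : i < n + 1 := by
      have : (i : ℝ) < ((n + 1 : ℕ) : ℝ) := by push_cast; linarith
      exact_mod_cast this
    refine mem_iUnion.2 ⟨⟨i, h3⟩, (hmem t ⟨i, h3⟩).2 ?_⟩
    rw [abs_lt]
    unfold tau
    rw [htu]
    constructor <;> nlinarith
  · intro x i j k hxi hxj hxk
    obtain ⟨t, rfl⟩ : ∃ t, Φ t = x := by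
      obtain ⟨t, _, ht⟩ := hxi
      exact ⟨t, ht⟩
    have h1 := (hmem t i).1 hxi
    have h2 := (hmem t j).1 hxj
    have h3 := (hmem t k).1 hxk
    have h12 := close hh0 h1 h2
    have h13 := close hh0 h1 h3
    have h23 := close hh0 h2 h3
    simp only [Fin.ext_iff]
    omega
  · intro t i j ht hti htj
    have h1 := (hmem t i).1 hti
    have h2 := (hmem t j).1 htj
    rw [mem_Icc, not_and_or, not_le, not_le] at ht
    rcases ht with ht | ht
    · exact Fin.ext ((left_end hh0 h1 ht).trans (left_end hh0 h2 ht).symm)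
    · exact Fin.ext ((right_end hh0 hbn (hin i) h1 ht).trans
        (right_end hh0 hbn (hin j) h2 ht).symm)
  · intro t i ht hti
    have h1 := (hmem t i).1 hti
    rw [mem_Icc, not_and_or, not_le, not_le] at ht
    rcases ht with ht | ht
    · left
      have h2 := left_end hh0 h1 ht
      rw [h2] at h1
      unfold tau at h1
      simp only [Nat.cast_zero, zero_mul, add_zero] at h1
      linarith
    · right
      have h2 := right_end hh0 hbn (hin i) h1 ht
      rw [h2] at h1
      unfold tau at h1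
      rw [← hbn] at h1
      linarith
  · have h1 : (3 : ℝ) ≤ n := by
      rw [hn]
      push_cast
      linarith [(Nat.cast_nonneg N : (0 : ℝ) ≤ N)]
    constructor
    · linarith
    · rw [hbn]
      nlinarith
  · rw [hmem]
    unfold tau
    simp only [Nat.cast_one, one_mul, sub_self, abs_zero]
    positivity
  · intro i hne hcl
    have hcomp : IsClosed (Φ '' Icc (tau a h i - 3 * h / 4) (tau a h i + 3 * h / 4)) :=
      (isCompact_Icc.image hc).isClosed
    have h1 := hcomp.closure_subset_iff.2 (image_mono Ioo_subset_Icc_self) hcl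
    rw [hi.mem_set_image] at h1
    unfold tau at h1
    apply hne
    apply Fin.ext
    change (i : ℕ) = 1
    have h2 : (((i : ℕ)) : ℝ) < ((2 : ℕ) : ℝ) := by
      push_cast
      by_contra hcon
      push Not at hcon
      nlinarith [h1.1]
    have h3 : ((0 : ℕ) : ℝ) < (((i : ℕ)) : ℝ) := by
      push_cast
      by_contra hcon
      push Not at hcon
      nlinarith [h1.2]
    have h4 : (i : ℕ) < 2 := by exact_mod_cast h2
    have h5 : 0 < (i : ℕ) := by exact_mod_cast h3
    omega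

end R749SCT
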