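import Pool.Agent.R749.SCT.Defs

/-!
# STUB file (statement only). The real file is `Arc.lean`, same name, same namespace.
-/

open Set Topology

namespace R749SCT

theorem arcs {X : Type} [TopologicalSpace X] [T2Space X] (Φ : ℝ → X) (hc : Continuous Φ)
    (hi : Function.Injective Φ) (ho : ∀ a b, IsOpen (Φ '' Ioo a b))
    {m : ℕ} (U : Fin m → Set X) (hU : ∀ i, IsOpen (U i)) (hcov : (⋃ i, U i) = univ)
    {a b δ : ℝ} (hab : a < b) (hδ : 0 < δ) :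
    ∃ (n : ℕ) (B : Fin (n + 1) → Set X) (s : ℝ) (i₀ : Fin (n + 1)),
      (∀ i, IsOpen (B i)) ∧ (∀ i, ∃ c, B i ⊆ U c) ∧ (∀ i, B i ⊆ range Φ) ∧
      Φ '' Icc a b ⊆ (⋃ i, B i) ∧
      (∀ x i j k, x ∈ B i → x ∈ B j → x ∈ B k → i = j ∨ i = k ∨ j = k) ∧
      (∀ t i j, t ∉ Icc a b → Φ t ∈ B i → Φ t ∈ B j → i = j) ∧
      (∀ t i, t ∉ Icc a b → Φ t ∈ B i → |t - a| < δ ∨ |t - b| < δ) ∧
      s ∈ Ioo a b ∧ Φ s ∈ B i₀ ∧ ∀ i, i ≠ i₀ → Φ s ∉ closure (B i) := sorry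

end R749SCT
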