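import Pool.Agent.R749.SCT.Defs

/-!
# Computability part
-/

open Set Topology Encodable

namespace R749SCT

/-- closure of `O`-c.e. sets under primitive recursive preimages, primitive recursive side
conditions and projection -/
theorem CEIn.of_rel {O : Set ℕ} {α β γ : Type} [Primcodable α] [Primcodable β] [Primcodable γ]
    {U : Set β} (hU : CEIn O U) {R : α × γ → Prop} (hR : PrimrecPred R) {F : α × γ → β}
    (hF : Primrec F) : CEIn O {a | ∃ c, R (a, c) ∧ F (a, c) ∈ U} := by
  classical
  obtain ⟨f, hf, hfU⟩ := hU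
  let G : ℕ × Option β → Option α := fun p =>
    (decode (α := α × γ) (Nat.unpair p.1).1).bind fun q =>
      if R q ∧ p.2 = some (F q) then some q.1 else none
  have hG : Primrec G := by
    have h1 : Primrec (fun p : ℕ × Option β => decode (α := α × γ) (Nat.unpair p.1).1) :=
      Primrec.decode.comp (Primrec.fst.comp (Primrec.unpair.comp Primrec.fst))
    have h2 : Primrec₂ (fun (p : ℕ × Option β) (q : α × γ) =>
        if R q ∧ p.2 = some (F q) then some q.1 else none) := by
      refine Primrec.ite ?_ ?_ ?_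
      · refine PrimrecPred.and (hR.comp Primrec.snd) ?_
        exact Primrec.eq.comp (Primrec.snd.comp Primrec.fst)
          (Primrec.option_some.comp (hF.comp Primrec.snd))
      · exact Primrec.option_some.comp (Primrec.fst.comp Primrec.snd)
      · exact Primrec.const none
    exact Primrec.option_bind h1 h2
  refine ⟨fun n => G (n, f (Nat.unpair n).2), ?_, ?_⟩
  · have hf' : Nat.RecursiveIn {oracle O} (fun n => Part.some (encode (f n))) := by
      refine Nat.RecursiveIn.of_eq hf ?_
      intro n
      simp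
    have h1 : Nat.RecursiveIn {oracle O} (fun n => Part.some (encode (f (Nat.unpair n).2))) := by
      refine Nat.RecursiveIn.of_eq (Nat.RecursiveIn.comp hf' Nat.RecursiveIn.right) ?_
      intro n
      simp
    have h0 : Nat.RecursiveIn {oracle O} (fun n => Part.some n) := by
      refine Nat.RecursiveIn.of_eq
        (Nat.RecursiveIn.pair Nat.RecursiveIn.left Nat.RecursiveIn.right) ?_
      intro n
      simp [Seq.seq]
    have h2 : Nat.RecursiveIn {oracle O}
        (fun n => Part.some (Nat.pair n (encode (f (Nat.unpair n).2)))) := by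
      refine Nat.RecursiveIn.of_eq (Nat.RecursiveIn.pair h0 h1) ?_
      intro n
      simp [Seq.seq]
    have hG' := hG.computableIn (O := {oracle O})
    refine Nat.RecursiveIn.of_eq (Nat.RecursiveIn.comp hG' h2) ?_
    intro n
    simp
  · intro a
    show (∃ c, R (a, c) ∧ F (a, c) ∈ U) ↔ _
    constructor
    · rintro ⟨c, hRc, hFc⟩
      obtain ⟨m, hm⟩ := (hfU _).1 hFc
      refine ⟨Nat.pair (encode (a, c)) m, ?_⟩
      show (decode (α := α × γ) (Nat.unpair (Nat.pair (encode (a, c)) m)).1).bind _ = _
      simp only [Nat.unpair_pair, encodek, Option.bind_some]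
      rw [if_pos ⟨hRc, by simpa using hm⟩]
    · rintro ⟨n, hn⟩
      change (decode (α := α × γ) (Nat.unpair n).1).bind _ = _ at hn
      rw [Option.bind_eq_some_iff] at hn
      obtain ⟨q, hq, hq2⟩ := hn
      split_ifs at hq2 with hcond
      obtain ⟨hRq, hfq⟩ := hcond
      have hqa : q.1 = a := by simpa using hq2
      refine ⟨q.2, ?_, ?_⟩
      · rw [← hqa]; exact hRq
      · rw [← hqa]
        exact (hfU _).2 ⟨_, hfq⟩

theorem primrec_pow2 : Primrec (fun n : ℕ => 2 ^ n) := by
  have h : Primrec₂ (fun a b : ℕ => a ^ b) := Primrec₂.unpaired'.1 Nat.Primrec.pow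
  exact h.comp (Primrec.const 2) Primrec.id

theorem primrec_Half : PrimrecRel (fun (n : ℕ) (p : BallCode × BallCode) => Half n p.1 p.2) := by
  have hb1 : Primrec (fun x : ℕ × (BallCode × BallCode) => x.2.1) :=
    Primrec.fst.comp Primrec.snd
  have hb2 : Primrec (fun x : ℕ × (BallCode × BallCode) => x.2.2) :=
    Primrec.snd.comp Primrec.snd
  have ha1 : Primrec (fun x : ℕ × (BallCode × BallCode) => x.2.1.1) := Primrec.fst.comp hb1
  have hq1 : Primrec (fun x : ℕ × (BallCode × BallCode) => x.2.1.2.1 + 1) :=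
    Primrec.succ.comp (Primrec.fst.comp (Primrec.snd.comp hb1))
  have hr1 : Primrec (fun x : ℕ × (BallCode × BallCode) => x.2.1.2.2.1 + 1) :=
    Primrec.succ.comp (Primrec.fst.comp (Primrec.snd.comp (Primrec.snd.comp hb1)))
  have hs1 : Primrec (fun x : ℕ × (BallCode × BallCode) => x.2.1.2.2.2 + 1) :=
    Primrec.succ.comp (Primrec.snd.comp (Primrec.snd.comp (Primrec.snd.comp hb1)))
  have ha2 : Primrec (fun x : ℕ × (BallCode × BallCode) => x.2.2.1) := Primrec.fst.comp hb2
  have hq2 : Primrec (fun x : ℕ × (BallCode × BallCode) => x.2.2.2.1 + 1) :=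
    Primrec.succ.comp (Primrec.fst.comp (Primrec.snd.comp hb2))
  have hr2 : Primrec (fun x : ℕ × (BallCode × BallCode) => x.2.2.2.2.1 + 1) :=
    Primrec.succ.comp (Primrec.fst.comp (Primrec.snd.comp (Primrec.snd.comp hb2)))
  have hs2 : Primrec (fun x : ℕ × (BallCode × BallCode) => x.2.2.2.2.2 + 1) :=
    Primrec.succ.comp (Primrec.snd.comp (Primrec.snd.comp (Primrec.snd.comp hb2)))
  have hg1 : Primrec (fun x : ℕ × (BallCode × BallCode) => min (x.2.1.1.getD x.1 0) (x.2.1.2.1 + 1)) :=
    Primrec.nat_min.comp ((Primrec.list_getD 0).comp ha1 Primrec.fst) hq1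
  have hg2 : Primrec (fun x : ℕ × (BallCode × BallCode) => min (x.2.2.1.getD x.1 0) (x.2.2.2.1 + 1)) :=
    Primrec.nat_min.comp ((Primrec.list_getD 0).comp ha2 Primrec.fst) hq2
  have hpow : Primrec (fun x : ℕ × (BallCode × BallCode) => 2 ^ x.1) :=
    primrec_pow2.comp Primrec.fst
  have M := @Primrec.nat_mul
  have A := @Primrec.nat_add
  exact Primrec.nat_le.comp
    (A.comp (M.comp (M.comp hpow (M.comp hq1 hq2)) (A.comp (M.comp hr1 hs2) (M.comp hr2 hs1)))
      (M.comp (M.comp hg2 hq1) (M.comp hs1 hs2)))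
    (M.comp (M.comp hg1 hq2) (M.comp hs1 hs2))

theorem primrec_FD : PrimrecRel (fun b b' : BallCode => FD b b') := by
  have h : PrimrecRel (fun (n : ℕ) (p : BallCode × BallCode) => Half n p.1 p.2 ∨ Half n p.2 p.1) := by
    refine PrimrecPred.or primrec_Half ?_
    exact primrec_Half.comp Primrec.fst
      (Primrec.pair (Primrec.snd.comp Primrec.snd) (Primrec.fst.comp Primrec.snd))
  have h2 : PrimrecRel (fun (n : ℕ) (p : BallCode × BallCode) =>
      ∃ x < n, (Half x p.1 p.2 ∨ Half x p.2 p.1)) :=
    (h.exists_mem_list.comp (Primrec.list_range.comp Primrec.fst) Primrec.snd).of_eq (by simp)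
  exact h2.comp (Primrec.nat_max.comp (Primrec.list_length.comp (Primrec.fst.comp Primrec.fst))
    (Primrec.list_length.comp (Primrec.fst.comp Primrec.snd))) Primrec.id

/-- all members of the first list are formally disjoint from all members of the second -/
theorem primrec_allFD : PrimrecRel (fun L L' : List BallCode => ∀ v ∈ L, ∀ v' ∈ L', FD v v') := by
  have h1 : PrimrecRel (fun (L' : List BallCode) (v : BallCode) => ∀ v' ∈ L', FD v v') := by
    have := (primrec_FD.swap).forall_mem_list
    exact this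
  have h2 : PrimrecRel (fun (v : BallCode) (L' : List BallCode) => ∀ v' ∈ L', FD v v') := h1.swap
  exact h2.forall_mem_list

/-- The c.e. set used in the main argument: two references `i = true, false`, each with constant
lists `W i`, `Ep i`, `Em i`. -/
theorem CEIn.main {O : Set ℕ} {Y : Set HilbertCube} (hY : SemicomputableIn O Y)
    (W Ep Em : Bool → List BallCode) :
    CEIn O {b : BallCode | ∃ c : Bool × (List BallCode × List BallCode),
      (∀ v ∈ Ep c.1 ++ c.2.1, ∀ v' ∈ Em c.1 ++ c.2.2, FD v v') ∧
      ∀ y ∈ Y, ∃ b' ∈ b :: (W c.1 ++ ((Ep c.1 ++ c.2.1) ++ (Em c.1 ++ c.2.2))), y ∈ ball b'} := by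
  have hc1 : Primrec (fun x : BallCode × (Bool × (List BallCode × List BallCode)) => x.2.1) :=
    Primrec.fst.comp Primrec.snd
  have hc2 : Primrec (fun x : BallCode × (Bool × (List BallCode × List BallCode)) => x.2.2.1) :=
    Primrec.fst.comp (Primrec.snd.comp Primrec.snd)
  have hc3 : Primrec (fun x : BallCode × (Bool × (List BallCode × List BallCode)) => x.2.2.2) :=
    Primrec.snd.comp (Primrec.snd.comp Primrec.snd)
  have hW : Primrec (fun x : BallCode × (Bool × (List BallCode × List BallCode)) => W x.2.1) :=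
    (Primrec.dom_bool W).comp hc1
  have hEp : Primrec (fun x : BallCode × (Bool × (List BallCode × List BallCode)) => Ep x.2.1) :=
    (Primrec.dom_bool Ep).comp hc1
  have hEm : Primrec (fun x : BallCode × (Bool × (List BallCode × List BallCode)) => Em x.2.1) :=
    (Primrec.dom_bool Em).comp hc1
  have hp := Primrec.list_append.comp hEp hc2
  have hm := Primrec.list_append.comp hEm hc3
  exact CEIn.of_rel (α := BallCode) (γ := Bool × (List BallCode × List BallCode))
    (R := fun x => ∀ v ∈ Ep x.2.1 ++ x.2.2.1, ∀ v' ∈ Em x.2.1 ++ x.2.2.2, FD v v')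
    (F := fun x => x.1 :: (W x.2.1 ++ ((Ep x.2.1 ++ x.2.2.1) ++ (Em x.2.1 ++ x.2.2.2)))) hY
    (primrec_allFD.comp hp hm)
    (Primrec.list_cons.comp Primrec.fst (Primrec.list_append.comp hW
      (Primrec.list_append.comp hp hm)))

end R749SCT
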