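import Pool.Agent.R749.SCT.Space
import Pool.Agent.R749.SCT.Arc

/-!
# The covering dimension of the space is at most one
-/

open Set Topology OnePoint

namespace R749SCT

/-- the sequences which begin with `N` infinities -/
def AN (N : ℕ) : Set XX := {x | ∀ n < N, x.1 n = ∞}

theorem an_shift {N : ℕ} {x : XX} (hx : x ∈ AN N) : iota x ∈ AN (N + 1) := by
  intro n hn
  cases n with
  | zero => rfl
  | succ n => exact hx n (by omega)

theorem isClosed_AN (N : ℕ) : IsClosed (AN N) := by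
  have h1 : AN N = ⋂ n, ⋂ (_ : n < N), {x : XX | x.1 n = ∞} := by
    ext x
    simp [AN]
  rw [h1]
  refine isClosed_iInter fun n => isClosed_iInter fun _ => ?_
  have h2 : Continuous fun x : XX => x.1 n := (continuous_apply n).comp continuous_subtype_val
  exact isClosed_singleton.preimage h2

/-- the statement of the induction -/
def Claim (N : ℕ) : Prop :=
  ∀ (m : ℕ) (U : Fin m → Set XX), (∀ i, IsOpen (U i)) → (⋃ i, U i) = univ →
    ∀ i0, AN N ⊆ U i0 →
    ∃ (J : Type) (_ : Fintype J) (V : J → Set XX) (s : ℝ) (j0 : J),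
      (∀ j, IsOpen (V j)) ∧ (⋃ j, V j) = univ ∧ (∀ j, ∃ i, V j ⊆ U i) ∧
      (∀ x i j k, x ∈ V i → x ∈ V j → x ∈ V k → i = j ∨ i = k ∨ j = k) ∧
      Phi s ∈ V j0 ∧ ∀ j, j ≠ j0 → Phi s ∉ closure (V j)

theorem claim_zero : Claim 0 := by
  intro m U hU hcov i0 hA
  refine ⟨Unit, inferInstance, fun _ => univ, 0, (), fun _ => isOpen_univ,
    iUnion_const _, fun _ =>
    ⟨i0, fun x _ => hA fun n hn => absurd hn (Nat.not_lt_zero n)⟩, fun _ _ _ _ _ _ _ => Or.inl rfl,
    mem_univ _, fun j hj => absurd rfl hj⟩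

theorem claim_succ {N : ℕ} (ih : Claim N) : Claim (N + 1) := by
  classical
  intro m U hU hcov i0 hA
  -- the cover of the copy at infinity
  have hU' : ∀ i, IsOpen (iota ⁻¹' U i) := fun i => (hU i).preimage continuous_iota
  have hcov' : (⋃ i, iota ⁻¹' U i) = univ := by
    rw [← preimage_iUnion, hcov, preimage_univ]
  have hA' : AN N ⊆ iota ⁻¹' U i0 := fun x hx => hA (an_shift hx)
  obtain ⟨v, hvcov, hvo, hvcl⟩ := exists_iUnion_eq_closure_subset hU'
    (fun x => Set.toFinite _) hcov'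
  obtain ⟨O, hO, hAO, hOcl⟩ := normal_exists_closure_subset (isClosed_AN N) (hU' i0) hA'
  obtain ⟨W, hW⟩ : ∃ W : Fin m → Set XX, ∀ i, W i = v i ∪ (if i = i0 then O else ∅) :=
    ⟨_, fun _ => rfl⟩
  have hWo : ∀ i, IsOpen (W i) := by
    intro i
    rw [hW]
    refine (hvo i).union ?_
    by_cases h : i = i0
    · rw [if_pos h]; exact hO
    · rw [if_neg h]; exact isOpen_empty
  have hWcov : (⋃ i, W i) = univ := by
    rw [eq_univ_iff_forall]
    intro x
    have h1 : x ∈ iUnion v := by rw [hvcov]; trivial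
    obtain ⟨i, hi⟩ := mem_iUnion.1 h1
    exact mem_iUnion.2 ⟨i, by rw [hW]; exact Or.inl hi⟩
  have hWA : AN N ⊆ W i0 := by
    intro x hx
    rw [hW, if_pos rfl]
    exact Or.inr (hAO hx)
  have hWcl : ∀ i, closure (W i) ⊆ iota ⁻¹' U i := by
    intro i
    rw [hW, closure_union]
    refine union_subset (hvcl i) ?_
    by_cases h : i = i0
    · rw [if_pos h, h]; exact hOcl
    · rw [if_neg h, closure_empty]; exact empty_subset _
  obtain ⟨J, hJ, V, s, j0, hVo, hVcov, hVW, hVord, hs, hscl⟩ := ih m W hWo hWcov i0 hWA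
  choose c hc using hVW
  have hVcl : ∀ j, closure (V j) ⊆ iota ⁻¹' U (c j) := fun j =>
    (closure_mono (hc j)).trans (hWcl (c j))
  -- the exceptional compact set
  obtain ⟨T, hT⟩ : ∃ T : ℕ, ∀ j x, x ∉ Phi '' Ioo (-(T : ℝ)) T → shift x ∈ closure (V j) →
      x ∈ U (c j) := by
    have hK : IsCompact (⋃ j, (shift ⁻¹' closure (V j) \ U (c j))) := by
      refine isCompact_iUnion fun j => IsClosed.isCompact ?_
      exact (isClosed_closure.preimage continuous_shift).sdiff (hU (c j))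
    have hsub : (⋃ j, (shift ⁻¹' closure (V j) \ U (c j))) ⊆
        ⋃ n : ℕ, Phi '' Ioo (-(n : ℝ)) n := by
      intro x hx
      obtain ⟨j, hj1, hj2⟩ := mem_iUnion.1 hx
      rcases Phi_or_iota x with ⟨t, rfl⟩ | ⟨-, h2⟩
      · obtain ⟨n, hn⟩ := exists_nat_gt |t|
        rw [abs_lt] at hn
        exact mem_iUnion.2 ⟨n, t, hn, rfl⟩
      · exfalso
        apply hj2
        have h3 := hVcl j hj1
        rw [h2]
        exact h3
    obtain ⟨n, hn⟩ := hK.elim_directed_cover (fun n : ℕ => Phi '' Ioo (-(n : ℝ)) n)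
      (fun n => isOpen_Phi_Ioo _ _) hsub (by
        intro n n'
        refine ⟨max n n', image_mono (Ioo_subset_Ioo ?_ ?_),
          image_mono (Ioo_subset_Ioo ?_ ?_)⟩
        · rw [neg_le_neg_iff]
          exact_mod_cast le_max_left n n'
        · exact_mod_cast le_max_left n n'
        · rw [neg_le_neg_iff]
          exact_mod_cast le_max_right n n'
        · exact_mod_cast le_max_right n n')
    refine ⟨n, fun j x hx hxj => ?_⟩
    by_contra hcon
    exact hx (hn (mem_iUnion.2 ⟨j, hxj, hcon⟩))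
  obtain ⟨a, haT, hga⟩ := g_large_neg s T
  obtain ⟨b, hbT, hgb⟩ := g_large s T
  have hT0 : (0 : ℝ) ≤ T := Nat.cast_nonneg T
  have hab : a < b := by linarith
  -- the neighbourhoods of `a` and `b`
  have hE : IsOpen {t : ℝ | ∀ j, j ≠ j0 → Phi (g t) ∉ closure (V j)} := by
    have h1 : {t : ℝ | ∀ j, j ≠ j0 → Phi (g t) ∉ closure (V j)} =
        ⋂ j, {t : ℝ | j ≠ j0 → Phi (g t) ∉ closure (V j)} := by
      ext t
      simp
    rw [h1]
    refine isOpen_iInter_of_finite fun j => ?_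
    by_cases hj : j = j0
    · have h2 : {t : ℝ | j ≠ j0 → Phi (g t) ∉ closure (V j)} = univ := by
        ext t
        simp [hj]
      rw [h2]
      exact isOpen_univ
    · have h2 : {t : ℝ | j ≠ j0 → Phi (g t) ∉ closure (V j)} =
          (fun t => Phi (g t)) ⁻¹' (closure (V j))ᶜ := by
        ext t
        simp [hj]
      rw [h2]
      exact isClosed_closure.isOpen_compl.preimage (continuous_Phi.comp g_continuous)
  have haE : a ∈ {t : ℝ | ∀ j, j ≠ j0 → Phi (g t) ∉ closure (V j)} := by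
    intro j hj
    rw [hga]
    exact hscl j hj
  have hbE : b ∈ {t : ℝ | ∀ j, j ≠ j0 → Phi (g t) ∉ closure (V j)} := by
    intro j hj
    rw [hgb]
    exact hscl j hj
  obtain ⟨δ1, hδ1, hδa⟩ := Metric.isOpen_iff.1 hE a haE
  obtain ⟨δ2, hδ2, hδb⟩ := Metric.isOpen_iff.1 hE b hbE
  have hδ : 0 < min δ1 δ2 := lt_min hδ1 hδ2
  have hnear : ∀ t, (|t - a| < min δ1 δ2 ∨ |t - b| < min δ1 δ2) →
      ∀ j, j ≠ j0 → Phi (g t) ∉ closure (V j) := by
    rintro t (ht | ht)
    · exact hδa (by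
        rw [Metric.mem_ball, Real.dist_eq]
        exact ht.trans_le (min_le_left _ _))
    · exact hδb (by
        rw [Metric.mem_ball, Real.dist_eq]
        exact ht.trans_le (min_le_right _ _))
  obtain ⟨n, B, s', i1, hBo, hBU, hBr, hBcov, hBord, hBone, hBnear, hs', hs'B, hs'cl⟩ :=
    arcs Phi continuous_Phi Phi_injective isOpen_Phi_Ioo U hU hcov hab hδ
  have hcl : IsClosed (Phi '' Icc a b) := (isCompact_Icc.image continuous_Phi).isClosed
  obtain ⟨V', hV'⟩ : ∃ V' : J ⊕ Fin (n + 1) → Set XX,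
      V' = Sum.elim (fun j => (Phi '' Icc a b)ᶜ ∩ shift ⁻¹' V j) B := ⟨_, rfl⟩
  -- the two families meet only near the ends
  have H0 : ∀ x (i' : J) k', x ∈ V' (Sum.inl i') → x ∈ V' (Sum.inr k') →
      ∃ t, x = Phi t ∧ t ∉ Icc a b := by
    intro x i' k' hx1 hx2
    rw [hV'] at hx1 hx2
    obtain ⟨t, rfl⟩ := hBr k' hx2
    exact ⟨t, rfl, fun ht => hx1.1 ⟨t, ht, rfl⟩⟩
  have H1 : ∀ x (i' : J) k', x ∈ V' (Sum.inl i') → x ∈ V' (Sum.inr k') → i' = j0 := by
    intro x i' k' hx1 hx2
    obtain ⟨t, rfl, ht⟩ := H0 x i' k' hx1 hx2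
    rw [hV'] at hx1 hx2
    by_contra hcon
    refine hnear t (hBnear t k' ht hx2) i' hcon (subset_closure ?_)
    rw [← shift_Phi]
    exact hx1.2
  have H2 : ∀ x (i' : J) k' l', x ∈ V' (Sum.inl i') → x ∈ V' (Sum.inr k') →
      x ∈ V' (Sum.inr l') → k' = l' := by
    intro x i' k' l' hx1 hx2 hx3
    obtain ⟨t, rfl, ht⟩ := H0 x i' k' hx1 hx2
    rw [hV'] at hx2 hx3
    exact hBone t k' l' ht hx2 hx3
  refine ⟨J ⊕ Fin (n + 1), inferInstance, V', s', Sum.inr i1, ?_, ?_, ?_, ?_, ?_, ?_⟩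
  · rintro (j | i)
    · rw [hV']
      exact hcl.isOpen_compl.inter ((hVo j).preimage continuous_shift)
    · rw [hV']
      exact hBo i
  · rw [eq_univ_iff_forall]
    intro x
    by_cases hx : x ∈ Phi '' Icc a b
    · obtain ⟨i, hi⟩ := mem_iUnion.1 (hBcov hx)
      exact mem_iUnion.2 ⟨Sum.inr i, by rw [hV']; exact hi⟩
    · have h1 : shift x ∈ ⋃ j, V j := by rw [hVcov]; trivial
      obtain ⟨j, hj⟩ := mem_iUnion.1 h1
      exact mem_iUnion.2 ⟨Sum.inl j, by rw [hV']; exact ⟨hx, hj⟩⟩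
  · rintro (j | i)
    · refine ⟨c j, fun x hx => ?_⟩
      rw [hV'] at hx
      refine hT j x (fun h => hx.1 ?_) (subset_closure hx.2)
      obtain ⟨t, ht, rfl⟩ := h
      exact ⟨t, ⟨by linarith [ht.1], by linarith [ht.2]⟩, rfl⟩
    · obtain ⟨d, hd⟩ := hBU i
      exact ⟨d, by rw [hV']; exact hd⟩
  · rintro x (i | i) (j | j) (k | k) hi hj hk
    · rw [hV'] at hi hj hk
      rcases hVord (shift x) i j k hi.2 hj.2 hk.2 with h | h | h
      · exact Or.inl (by rw [h])
      · exact Or.inr (Or.inl (by rw [h]))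
      · exact Or.inr (Or.inr (by rw [h]))
    · exact Or.inl (by rw [H1 x i k hi hk, H1 x j k hj hk])
    · exact Or.inr (Or.inl (by rw [H1 x i j hi hj, H1 x k j hk hj]))
    · exact Or.inr (Or.inr (by rw [H2 x i j k hi hj hk]))
    · exact Or.inr (Or.inr (by rw [H1 x j i hj hi, H1 x k i hk hi]))
    · exact Or.inr (Or.inl (by rw [H2 x j i k hj hi hk]))
    · exact Or.inl (by rw [H2 x k i j hk hi hj])
    · rw [hV'] at hi hj hk
      rcases hBord x i j k hi hj hk with h | h | h
      · exact Or.inl (by rw [h])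
      · exact Or.inr (Or.inl (by rw [h]))
      · exact Or.inr (Or.inr (by rw [h]))
  · rw [hV']
    exact hs'B
  · rintro (j | i) hne
    · have h1 : closure (V' (Sum.inl j)) ⊆ (Phi '' Ioo a b)ᶜ := by
        refine closure_minimal ?_ (isOpen_Phi_Ioo a b).isClosed_compl
        intro x hx hx'
        rw [hV'] at hx
        exact hx.1 (image_mono Ioo_subset_Icc_self hx')
      exact fun h => h1 h ⟨s', hs', rfl⟩
    · rw [hV']
      exact hs'cl i fun h => hne (by rw [h])

theorem claim_all (N : ℕ) : Claim N := by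
  induction N with
  | zero => exact claim_zero
  | succ N ih => exact claim_succ ih

/-- **The covering dimension of the space is at most one.** -/
theorem coveringDimLE_XX : CoveringDimLE XX 1 := by
  classical
  intro m U hU hcov
  obtain ⟨p, hp⟩ : ∃ p : XX, ∀ n, p.1 n = ∞ :=
    ⟨⟨fun _ => ∞, fun n t h => absurd h (OnePoint.infty_ne_coe t)⟩, fun _ => rfl⟩
  have h1 : p ∈ ⋃ i, U i := by rw [hcov]; trivial
  obtain ⟨i0, hi0⟩ := mem_iUnion.1 h1
  obtain ⟨N, hN⟩ : ∃ N, AN N ⊆ U i0 := by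
    have hK : IsCompact (U i0)ᶜ := (hU i0).isClosed_compl.isCompact
    obtain ⟨N, hN⟩ := hK.elim_directed_cover (fun N => (AN N)ᶜ)
      (fun N => (isClosed_AN N).isOpen_compl) (by
        intro x hx
        by_contra hcon
        have h2 : x = p := by
          apply Subtype.ext
          funext n
          rw [hp]
          by_contra h3
          apply hcon
          exact mem_iUnion.2 ⟨n + 1, fun h4 => h3 (h4 n (Nat.lt_succ_self n))⟩
        rw [h2] at hx
        exact hx hi0) (by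
        intro n n'
        refine ⟨max n n', compl_subset_compl.2 fun x hx k hk => hx k (hk.trans_le
          (le_max_left n n')), compl_subset_compl.2 fun x hx k hk => hx k (hk.trans_le
          (le_max_right n n'))⟩)
    exact ⟨N, compl_subset_compl.1 hN⟩
  obtain ⟨J, hJ, V, s, j0, hVo, hVcov, hVU, hVord, -, -⟩ := claim_all N m U hU hcov i0 hN
  refine ⟨Fintype.card J, fun k => V ((Fintype.equivFin J).symm k), fun k => hVo _, ?_,
    fun k => hVU _, fun x => ?_⟩
  · rw [eq_univ_iff_forall]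
    intro x
    have h2 : x ∈ ⋃ j, V j := by rw [hVcov]; trivial
    obtain ⟨j, hj⟩ := mem_iUnion.1 h2
    exact mem_iUnion.2 ⟨Fintype.equivFin J j, by rw [Equiv.symm_apply_apply]; exact hj⟩
  · by_contra hcon
    push Not at hcon
    rw [Nat.card_eq_fintype_card] at hcon
    obtain ⟨u, v, w, huv, huw, hvw⟩ := Fintype.two_lt_card_iff.1 hcon
    rcases hVord x _ _ _ u.2 v.2 w.2 with h | h | h
    · exact huv (Subtype.ext ((Fintype.equivFin J).symm.injective h))
    · exact huw (Subtype.ext ((Fintype.equivFin J).symm.injective h))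
    · exact hvw (Subtype.ext ((Fintype.equivFin J).symm.injective h))

end R749SCT
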