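import Pool.Agent.R749.SCT.SpaceStm
import Pool.Agent.R749.SCT.ArcStm

/-!
# STUB file (statement only). The real file is `Dim.lean` (importing `Space.lean` and `Arc.lean`).
-/

open Set Topology

namespace R749SCT

theorem coveringDimLE_XX : CoveringDimLE XX 1 := sorry

end R749SCT
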