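import Pool.Agent.R749.SCT.Defs

/-!
# STUB file (statements only). The real file is `Sep.lean`, same names, same namespace.
-/

open Set Topology

namespace R749SCT

theorem isOpen_ball (b : BallCode) : IsOpen (ball b) := sorry

/-- formally disjoint balls are disjoint -/
theorem FD_disjoint {b b' : BallCode} (h : FD b b') : Disjoint (ball b) (ball b') := sorry

/-- small balls centred near disjoint compact sets are formally disjoint -/
theorem sep {K L : Set HilbertCube} (hK : IsCompact K) (hL : IsCompact L) (hd : Disjoint K L) :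
    ∃ η : ℝ, 0 < η ∧ ∀ b b' : BallCode, rad b ≤ η → rad b' ≤ η →
      (∃ x ∈ K, qdist (centre b) x ≤ η) → (∃ y ∈ L, qdist (centre b') y ≤ η) → FD b b' := sorry

/-- a compact set inside an open set is covered by finitely many small coded balls inside it -/
theorem cover {K G : Set HilbertCube} (hK : IsCompact K) (hG : IsOpen G) (h : K ⊆ G) {η : ℝ}
    (hη : 0 < η) : ∃ L : List BallCode, (∀ y ∈ K, ∃ b ∈ L, y ∈ ball b) ∧
      ∀ b ∈ L, ball b ⊆ G ∧ rad b ≤ η ∧ ∃ x ∈ K, qdist (centre b) x ≤ η := sorry

end R749SCT
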