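import Pool.Agent.R749.SCT.Defs

/-!
# The space of MP_975a4b_lc: compact, metrizable, with a dense line
-/

open Set Topology OnePoint Filter

namespace R749SCT

/-- the space as a type -/
abbrev XX : Type := space

/-- the embedded line: `t ↦ (t, g t, g (g t), …)` -/
noncomputable def Phi (t : ℝ) : XX :=
  ⟨fun n => ((g^[n] t : ℝ) : OnePoint ℝ), by
    intro n s h
    have h' : g^[n] t = s := OnePoint.coe_injective h
    show ((g^[n + 1] t : ℝ) : OnePoint ℝ) = _
    rw [Function.iterate_succ_apply', h']⟩

/-- `ι(x) = (∞, x_0, x_1, …)` -/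
noncomputable def iota (x : XX) : XX :=
  ⟨fun n => Nat.casesOn n (∞ : OnePoint ℝ) x.1, by
    intro n s h
    cases n with
    | zero => exact absurd h (OnePoint.infty_ne_coe s)
    | succ n => exact x.2 n s h⟩

/-- the shift -/
noncomputable def shift (x : XX) : XX :=
  ⟨fun n => x.1 (n + 1), fun n s h => x.2 (n + 1) s h⟩

theorem g_continuous : Continuous g := by
  unfold g; fun_prop

theorem g_even (t : ℝ) : g (-t) = g t := by
  unfold g; rw [Real.sin_neg]; ring

theorem g_large (s T : ℝ) : ∃ t, T < t ∧ g t = s := by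
  obtain ⟨k, hk⟩ := exists_nat_gt (|T| + |s|)
  have hpi := Real.pi_gt_three
  have hk0 : (0 : ℝ) ≤ k := Nat.cast_nonneg k
  have h2k : (k : ℝ) ≤ k * (2 * Real.pi) := by nlinarith
  set a : ℝ := Real.pi / 2 + k * (2 * Real.pi) with ha
  set b : ℝ := (Real.pi + Real.pi / 2) + k * (2 * Real.pi) with hb
  have hTa := le_abs_self T
  have hT0 := abs_nonneg T
  have hs0 := abs_nonneg s
  have hs1 := le_abs_self s
  have hs2 := neg_abs_le s
  have hga : g a = a := by
    unfold g
    rw [ha, Real.sin_add_nat_mul_two_pi, Real.sin_pi_div_two, mul_one]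
  have hgb : g b = -b := by
    unfold g
    rw [hb, Real.sin_add_nat_mul_two_pi, Real.sin_add, Real.sin_pi, Real.cos_pi,
      Real.sin_pi_div_two]
    ring
  have hab : a ≤ b := by rw [ha, hb]; linarith
  have hs : s ∈ Icc (g b) (g a) := by
    rw [hga, hgb]
    constructor
    · rw [hb]; linarith
    · rw [ha]; linarith
  obtain ⟨t, ht, hgt⟩ := intermediate_value_Icc' hab g_continuous.continuousOn hs
  refine ⟨t, ?_, hgt⟩
  have := ht.1
  rw [ha] at this
  linarith

theorem g_large_neg (s T : ℝ) : ∃ t, t < -T ∧ g t = s := by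
  obtain ⟨t, ht, hgt⟩ := g_large s T
  exact ⟨-t, by linarith, by rw [g_even, hgt]⟩

theorem isOpen_S : IsOpen {p : OnePoint ℝ × OnePoint ℝ |
    ∃ t : ℝ, p.1 = (t : OnePoint ℝ) ∧ p.2 ≠ ((g t : ℝ) : OnePoint ℝ)} := by
  have h1 : IsOpen {p : ℝ × OnePoint ℝ | p.2 ≠ ((g p.1 : ℝ) : OnePoint ℝ)} :=
    isOpen_ne_fun continuous_snd
      (OnePoint.continuous_coe.comp (g_continuous.comp continuous_fst))
  have h2 := (OnePoint.isOpenEmbedding_coe (X := ℝ)).prodMap (IsOpenEmbedding.id (X := OnePoint ℝ))
  have h3 := h2.isOpenMap _ h1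
  convert h3 using 1
  ext ⟨p, q⟩
  constructor
  · rintro ⟨t, h, h'⟩
    exact ⟨(t, q), h', Prod.ext h.symm rfl⟩
  · rintro ⟨⟨t, q'⟩, h, h'⟩
    have e1 : (t : OnePoint ℝ) = p := congrArg Prod.fst h'
    have e2 : q' = q := congrArg Prod.snd h'
    refine ⟨t, e1.symm, ?_⟩
    rw [← e2]
    exact h

theorem isClosed_space : IsClosed space := by
  have h : space = ⋂ n : ℕ, {x : ℕ → OnePoint ℝ | (x n, x (n + 1)) ∈
      {p : OnePoint ℝ × OnePoint ℝ |
        ∃ t : ℝ, p.1 = (t : OnePoint ℝ) ∧ p.2 ≠ ((g t : ℝ) : OnePoint ℝ)}}ᶜ := by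
    ext x
    rw [mem_iInter]
    constructor
    · intro hx n hn
      obtain ⟨t, h1, h2⟩ := hn
      exact h2 (hx n t h1)
    · intro hx n t ht
      by_contra hne
      exact hx n ⟨t, ht, hne⟩
  rw [h]
  refine isClosed_iInter fun n => ?_
  rw [isClosed_compl_iff]
  exact isOpen_S.preimage ((continuous_apply n).prodMk (continuous_apply (n + 1)))

instance : CompactSpace XX := isCompact_iff_compactSpace.1 isClosed_space.isCompact

theorem secondCountable_OnePoint : SecondCountableTopology (OnePoint ℝ) := by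
  have e : OnePoint ℝ ≃ₜ Metric.sphere (0 : EuclideanSpace ℝ (Fin 2)) 1 :=
    onePointEquivSphereOfFinrankEq (by simp)
  exact e.isEmbedding.secondCountableTopology

instance : TopologicalSpace.MetrizableSpace XX := by
  haveI := secondCountable_OnePoint
  exact TopologicalSpace.metrizableSpace_of_t3_secondCountable XX

theorem continuous_Phi : Continuous Phi :=
  Continuous.subtype_mk (continuous_pi fun n => OnePoint.continuous_coe.comp
    (g_continuous.iterate n)) _

theorem Phi_zero (t : ℝ) : (Phi t).1 0 = (t : OnePoint ℝ) := rfl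

theorem eq_Phi {x : XX} {t : ℝ} (h : x.1 0 = (t : OnePoint ℝ)) : x = Phi t := by
  apply Subtype.ext
  funext n
  show x.1 n = ((g^[n] t : ℝ) : OnePoint ℝ)
  induction n with
  | zero => exact h
  | succ n ih => rw [x.2 n _ ih, Function.iterate_succ_apply']

theorem Phi_injective : Function.Injective Phi := by
  intro s t h
  have h1 : (Phi s).1 0 = (Phi t).1 0 := by rw [h]
  exact OnePoint.coe_injective h1

theorem iota_zero (x : XX) : (iota x).1 0 = ∞ := rfl

theorem iota_succ (x : XX) (n : ℕ) : (iota x).1 (n + 1) = x.1 n := rfl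

theorem shift_iota (x : XX) : shift (iota x) = x := rfl

theorem shift_Phi (t : ℝ) : shift (Phi t) = Phi (g t) := by
  apply Subtype.ext
  funext n
  show ((g^[n + 1] t : ℝ) : OnePoint ℝ) = ((g^[n] (g t) : ℝ) : OnePoint ℝ)
  rw [Function.iterate_succ_apply]

theorem eq_iota {x : XX} (h : x.1 0 = ∞) : x = iota (shift x) := by
  apply Subtype.ext
  funext n
  cases n with
  | zero => exact h
  | succ n => rfl

theorem Phi_or_iota (x : XX) : (∃ t, x = Phi t) ∨ (x.1 0 = ∞ ∧ x = iota (shift x)) := by
  rcases eq_or_ne (x.1 0) ∞ with h | h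
  · exact Or.inr ⟨h, eq_iota h⟩
  · obtain ⟨t, ht⟩ := OnePoint.ne_infty_iff_exists.1 h
    exact Or.inl ⟨t, eq_Phi ht.symm⟩

theorem Phi_ne_iota (t : ℝ) (x : XX) : Phi t ≠ iota x := by
  intro h
  have h1 : (Phi t).1 0 = (iota x).1 0 := by rw [h]
  exact OnePoint.coe_ne_infty t h1

theorem continuous_coord (n : ℕ) : Continuous fun x : XX => x.1 n :=
  (continuous_apply n).comp continuous_subtype_val

theorem continuous_iota : Continuous iota := by
  refine Continuous.subtype_mk (continuous_pi fun n => ?_) _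
  cases n with
  | zero => exact continuous_const
  | succ n => exact continuous_coord n

theorem continuous_shift : Continuous shift :=
  Continuous.subtype_mk (continuous_pi fun n => continuous_coord (n + 1)) _

theorem isOpen_Phi_Ioo (a b : ℝ) : IsOpen (Phi '' Ioo a b) := by
  have h : Phi '' Ioo a b = (fun x : XX => x.1 0) ⁻¹' ((fun t : ℝ => (t : OnePoint ℝ)) '' Ioo a b) := by
    ext x
    constructor
    · rintro ⟨t, ht, rfl⟩
      exact ⟨t, ht, rfl⟩
    · rintro ⟨t, ht, h⟩
      exact ⟨t, ht, (eq_Phi h.symm).symm⟩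
  rw [h]
  exact (OnePoint.isOpen_image_coe.2 isOpen_Ioo).preimage (continuous_coord 0)

theorem tendsto_key (s : ℝ) (t : ℕ → ℝ) (ht : Tendsto t atTop (cocompact ℝ))
    (hg : ∀ k, g (t k) = s) : Tendsto (fun k => Phi (t k)) atTop (𝓝 (iota (Phi s))) := by
  rw [tendsto_subtype_rng, tendsto_pi_nhds]
  intro n
  cases n with
  | zero =>
    have h1 := OnePoint.tendsto_coe_infty (X := ℝ)
    rw [coclosedCompact_eq_cocompact] at h1
    exact h1.comp ht
  | succ n =>
    have h2 : (fun k => (Phi (t k)).1 (n + 1)) = fun _ => (iota (Phi s)).1 (n + 1) := by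
      funext k
      show ((g^[n + 1] (t k) : ℝ) : OnePoint ℝ) = ((g^[n] s : ℝ) : OnePoint ℝ)
      rw [Function.iterate_succ_apply, hg k]
    rw [h2]
    exact tendsto_const_nhds

theorem key_pos (s M : ℝ) : iota (Phi s) ∈ closure (Phi '' Ici M) := by
  choose t ht hg using fun k : ℕ => g_large s (max k M)
  have h1 : Tendsto t atTop atTop := by
    refine tendsto_atTop_mono (f := fun k : ℕ => (k : ℝ)) (fun k => ?_)
      tendsto_natCast_atTop_atTop
    exact (le_max_left (k : ℝ) M).trans (ht k).le
  have h2 := tendsto_key s t (h1.mono_right atTop_le_cocompact) hg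
  refine mem_closure_of_tendsto h2 (Eventually.of_forall fun k => ?_)
  exact ⟨t k, (le_max_right (k : ℝ) M).trans (ht k).le, rfl⟩

theorem key_neg (s M : ℝ) : iota (Phi s) ∈ closure (Phi '' Iic M) := by
  choose t ht hg using fun k : ℕ => g_large_neg s (max k (-M))
  have h1 : Tendsto t atTop atBot := by
    have h0 : Tendsto (fun k : ℕ => -(k : ℝ)) atTop atBot :=
      tendsto_neg_atTop_atBot.comp tendsto_natCast_atTop_atTop
    refine tendsto_atBot_mono (fun k => ?_) h0
    have := le_max_left (k : ℝ) (-M)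
    have := ht k
    linarith
  have h2 := tendsto_key s t (h1.mono_right atBot_le_cocompact) hg
  refine mem_closure_of_tendsto h2 (Eventually.of_forall fun k => ?_)
  refine ⟨t k, ?_, rfl⟩
  have := le_max_right (k : ℝ) (-M)
  have := ht k
  show t k ≤ M
  linarith

theorem iota_closure {x : XX} (hx : x ∈ closure (range Phi)) : iota x ∈ closure (range Phi) := by
  have h1 : iota x ∈ closure (iota '' range Phi) :=
    image_closure_subset_closure_image continuous_iota (mem_image_of_mem _ hx)
  have h2 : iota '' range Phi ⊆ closure (range Phi) := by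
    rintro _ ⟨_, ⟨s, rfl⟩, rfl⟩
    exact closure_mono (image_subset_range _ _) (key_pos s 0)
  exact closure_minimal h2 isClosed_closure h1

theorem iota_iterate (y : XX) (n m : ℕ) (h : m < n) : (iota^[n] y).1 m = ∞ := by
  induction n generalizing m with
  | zero => omega
  | succ n ih =>
    rw [Function.iterate_succ_apply']
    cases m with
    | zero => rfl
    | succ m => exact ih m (by omega)

theorem denseRange_Phi : DenseRange Phi := by
  intro x
  by_cases hx : ∃ n, ∃ t : ℝ, x.1 n = (t : OnePoint ℝ)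
  · obtain ⟨n, hn⟩ := hx
    induction n generalizing x with
    | zero =>
      obtain ⟨t, ht⟩ := hn
      exact subset_closure ⟨t, (eq_Phi ht).symm⟩
    | succ n ih =>
      rcases Phi_or_iota x with ⟨t, ht⟩ | ⟨_, h⟩
      · exact subset_closure ⟨t, ht.symm⟩
      · rw [h]
        exact iota_closure (ih (shift x) hn)
  · push Not at hx
    have hx' : ∀ n, x.1 n = ∞ := by
      intro n
      by_contra h
      obtain ⟨t, ht⟩ := OnePoint.ne_infty_iff_exists.1 h
      exact hx n t ht.symm
    have h1 : Tendsto (fun n => iota^[n] (Phi 0)) atTop (𝓝 x) := by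
      rw [tendsto_subtype_rng, tendsto_pi_nhds]
      intro m
      rw [hx' m]
      refine tendsto_const_nhds.congr' ?_
      filter_upwards [eventually_gt_atTop m] with n hn
      exact (iota_iterate _ n m hn).symm
    refine isClosed_closure.mem_of_tendsto h1 (Eventually.of_forall fun n => ?_)
    induction n with
    | zero => exact subset_closure ⟨0, rfl⟩
    | succ n ih =>
      rw [Function.iterate_succ_apply']
      exact iota_closure ih

theorem isPreconnected_compl {a b : ℝ} (h : a ≤ b) : IsPreconnected (Phi '' Ioo a b)ᶜ := by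
  haveI : PreconnectedSpace XX := denseRange_Phi.preconnectedSpace continuous_Phi
  set z := iota (Phi 0) with hz
  have e : (Phi '' Ioo a b)ᶜ = ((Phi '' Iic a ∪ {z}) ∪ (Phi '' Ici b ∪ {z})) ∪ range iota := by
    ext x
    constructor
    · intro hx
      rcases Phi_or_iota x with ⟨t, rfl⟩ | ⟨_, h1⟩
      · left
        rcases le_or_gt t a with h2 | h2
        · exact Or.inl (Or.inl ⟨t, h2, rfl⟩)
        · rcases le_or_gt b t with h3 | h3
          · exact Or.inr (Or.inl ⟨t, h3, rfl⟩)
          · exact absurd ⟨t, ⟨h2, h3⟩, rfl⟩ hx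
      · exact Or.inr ⟨shift x, h1.symm⟩
    · rintro (((⟨t, ht, rfl⟩ | hx) | (⟨t, ht, rfl⟩ | hx)) | ⟨y, rfl⟩) ⟨t', ht', h'⟩
      · have := Phi_injective h'
        rw [this] at ht'
        exact absurd ht'.1 (not_lt.2 ht)
      · rw [mem_singleton_iff.1 hx] at h'
        exact Phi_ne_iota _ _ h'
      · have := Phi_injective h'
        rw [this] at ht'
        exact absurd ht'.2 (not_lt.2 ht)
      · rw [mem_singleton_iff.1 hx] at h'
        exact Phi_ne_iota _ _ h'
      · exact Phi_ne_iota _ _ h'
  rw [e]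
  have h1 : IsPreconnected (Phi '' Iic a ∪ {z}) := by
    refine (isPreconnected_Iic.image Phi continuous_Phi.continuousOn).subset_closure
      subset_union_left ?_
    exact union_subset subset_closure (singleton_subset_iff.2 (key_neg 0 a))
  have h2 : IsPreconnected (Phi '' Ici b ∪ {z}) := by
    refine (isPreconnected_Ici.image Phi continuous_Phi.continuousOn).subset_closure
      subset_union_left ?_
    exact union_subset subset_closure (singleton_subset_iff.2 (key_pos 0 b))
  have h3 : IsPreconnected (range iota) := isPreconnected_range continuous_iota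
  have h4 := IsPreconnected.union z (Or.inr rfl) (Or.inr rfl) h1 h2
  exact IsPreconnected.union z (Or.inl (Or.inr rfl)) ⟨Phi 0, rfl⟩ h4 h3

theorem iota_injective : Function.Injective iota :=
  Function.LeftInverse.injective (g := shift) shift_iota

theorem properlyContainsCopy_XX : ProperlyContainsCopy XX := by
  refine ⟨range iota, ?_, ?_⟩
  · intro h
    have : Phi 0 ∈ range iota := by rw [h]; trivial
    obtain ⟨y, hy⟩ := this
    exact Phi_ne_iota _ _ hy.symm
  · have h := continuous_iota.isClosedEmbedding iota_injective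
    exact ⟨h.isEmbedding.toHomeomorph⟩

end R749SCT
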