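import Pool.Agent.R749.SCT.Defs

/-!
# STUB file (statements only). The real file is `Space.lean`, same names, same namespace.
-/

open Set Topology OnePoint

namespace R749SCT

/-- the space as a type -/
abbrev XX : Type := space

/-- the embedded line: `t ↦ (t, g t, g (g t), …)` -/
noncomputable def Phi (t : ℝ) : XX :=
  ⟨fun n => ((g^[n] t : ℝ) : OnePoint ℝ), by
    intro n s h
    have h' : g^[n] t = s := OnePoint.coe_injective h
    show ((g^[n + 1] t : ℝ) : OnePoint ℝ) = _
    rw [Function.iterate_succ_apply', h']⟩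

/-- `ι(x) = (∞, x_0, x_1, …)` -/
noncomputable def iota (x : XX) : XX :=
  ⟨fun n => Nat.casesOn n (∞ : OnePoint ℝ) x.1, by
    intro n s h
    cases n with
    | zero => exact absurd h (OnePoint.infty_ne_coe s)
    | succ n => exact x.2 n s h⟩

/-- the shift -/
noncomputable def shift (x : XX) : XX :=
  ⟨fun n => x.1 (n + 1), fun n s h => x.2 (n + 1) s h⟩

theorem g_continuous : Continuous g := by
  unfold g; fun_prop

theorem g_even (t : ℝ) : g (-t) = g t := by
  unfold g; rw [Real.sin_neg]; ring

theorem g_large (s T : ℝ) : ∃ t, T < t ∧ g t = s := sorry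

theorem g_large_neg (s T : ℝ) : ∃ t, t < -T ∧ g t = s := sorry

instance : CompactSpace XX := sorry

instance : TopologicalSpace.MetrizableSpace XX := sorry

theorem continuous_Phi : Continuous Phi := sorry

theorem Phi_zero (t : ℝ) : (Phi t).1 0 = (t : OnePoint ℝ) := sorry

theorem eq_Phi {x : XX} {t : ℝ} (h : x.1 0 = (t : OnePoint ℝ)) : x = Phi t := sorry

theorem Phi_injective : Function.Injective Phi := sorry

theorem iota_zero (x : XX) : (iota x).1 0 = ∞ := sorry

theorem shift_iota (x : XX) : shift (iota x) = x := sorry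

theorem shift_Phi (t : ℝ) : shift (Phi t) = Phi (g t) := sorry

theorem eq_iota {x : XX} (h : x.1 0 = ∞) : x = iota (shift x) := sorry

theorem Phi_or_iota (x : XX) : (∃ t, x = Phi t) ∨ (x.1 0 = ∞ ∧ x = iota (shift x)) := sorry

theorem Phi_ne_iota (t : ℝ) (x : XX) : Phi t ≠ iota x := sorry

theorem continuous_iota : Continuous iota := sorry

theorem continuous_shift : Continuous shift := sorry

theorem isOpen_Phi_Ioo (a b : ℝ) : IsOpen (Phi '' Ioo a b) := sorry

theorem denseRange_Phi : DenseRange Phi := sorry

theorem isPreconnected_compl {a b : ℝ} (h : a ≤ b) : IsPreconnected (Phi '' Ioo a b)ᶜ := sorry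

theorem properlyContainsCopy_XX : ProperlyContainsCopy XX := sorry

end R749SCT
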